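import Pool.Agent.helper6.KR.Main

/-!
# Bounded proofs of infinitely many instances and arithmetic progressions (MP_3270f3)

`LK Ax l Γ Δ`: the sequent `Γ ⟹ Δ` has a sequent calculus derivation consisting of `l` sequents, with
initial sequents `A ⟹ A`, `⊥ ⟹` and `⟹ A` for `A` in `Ax`.
`PAx`: the axioms of Peano arithmetic. `AxK K`: the equality axioms, the axioms for `S, +, ·`,
the least number principle for all formulas, and successor induction (and the Leibniz axiom) for the
formulas in which every occurrence of the induction variable lies under at most `K` symbols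
`+` and `·` (and any number of `S`).

If `φ(n)` has a derivation of length at most `k` from `AxK K` for all `n` in an infinite set `J`, then `J`
has an infinite subset `J'` such that PA proves `φ` on the whole arithmetic progression
`c, c + (b - a), c + 2 (b - a), ...` for all `a < b < c` in `J'`.
-/

namespace Pool.Agent.Results.MP_3270f3_lc.ArithmeticProgressions

open Pool.Agent.KR

/-- `φ(c + d · x)` as a formula in `x`. -/
def onProgression (c d : ℕ) (φ : Fm) : Fm :=
  φ.subst (scons (.op .add (num c) (.op .mul (num d) (.var 0))) (fun i => .var (i + 1)))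

theorem result (K k : ℕ) (φ : Fm) (hφ : φ.bd 1) (J : Set ℕ) (hJ : J.Infinite)
    (hk : ∀ n ∈ J, ∃ l ≤ k, LK (AxK K) l [] [φ.inst (num n)]) :
    ∃ J' ⊆ J, J'.Infinite ∧ ∀ a ∈ J', ∀ b ∈ J', ∀ c ∈ J', a < b → b < c →
      ∃ l : ℕ, LK PAx l [] [.all (onProgression c (b - a) φ)] := by
  obtain ⟨X0, hX0⟩ := PR1.2.2.2.2 φ
  have hG : ∀ n ∈ J, GC (AxB (8 * k + X0.length) K) k [] [φ.inst (num n)] := by
    intro n hn
    obtain ⟨l, hl, hd⟩ := hk n hn
    obtain ⟨X, hX, hY⟩ := PG GW PR1 (PR2 PR1) K l [] [φ.inst (num n)] hd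
    have g := hY (X ++ X0) (8 * k + X0.length) (List.subset_append_left _ _) (by
      rw [List.length_append]; omega)
    have e : [φ.inst (num n)].map (prune (X ++ X0)) = [φ.inst (num n)] := by
      rw [List.map_singleton]
      congr 1
      exact hX0 (X ++ X0) (List.subset_append_right _ _) _
    rw [e] at g
    exact GW _ _ l k _ _ _ _ (fun _ h => h) g hl (by simp) (by simp)
  obtain ⟨ν, hν, hνJ⟩ : ∃ ν : ℕ → ℕ, StrictMono ν ∧ ∀ j, ν j ∈ J :=
    ⟨Nat.nth (· ∈ J), Nat.nth_strictMono hJ, fun j => Nat.nth_mem_of_infinite hJ j⟩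
  obtain ⟨σ, hσ, hs⟩ := Main_CLM (8 * k + X0.length) K k 0 [] [fun n => φ.inst (num (ν n))]
    (fun n => hG (ν n) (hνJ n))
  have hmono : StrictMono (fun i => ν (σ i)) := hν.comp hσ
  refine ⟨Set.range (fun i => ν (σ i)), ?_, Set.infinite_range_of_injective hmono.injective, ?_⟩
  · rintro _ ⟨i, rfl⟩
    exact hνJ _
  · rintro _ ⟨i0, rfl⟩ _ ⟨i1, rfl⟩ _ ⟨i2, rfl⟩ h01 h12
    refine Main_K4 _ (fun M 𝔄 hPA ρ => ?_)
    obtain ⟨inst, rfl⟩ := Main_PM M 𝔄 hPA
    obtain ⟨T⟩ := Main_TSX M
    refine ((SB M (std M)).2.2.1 φ _ ρ).2 ?_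
    refine FIN_core SB Main_TR1 TR2 φ hφ M T (ρ 0) ν σ ![i0, i1, i2] hs ?_ ?_ ?_ _ ?_
    · exact hmono.lt_iff_lt.1 h01
    · exact hmono.lt_iff_lt.1 h12
    · exact le_of_lt h01
    · have hn : ∀ n : ℕ, (num n).ev (std M) ρ = (n : M) := by
        intro n
        rw [FIN_num_ev]
        induction n with
        | zero => exact Nat.cast_zero.symm
        | succ n ih =>
          rw [Function.iterate_succ_apply', ih, Nat.cast_succ]
          rfl
      change (num _).ev (std M) ρ + (num _).ev (std M) ρ * ρ 0 = _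
      rw [hn, hn]
      rfl

end Pool.Agent.Results.MP_3270f3_lc.ArithmeticProgressions
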