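import Pool.Agent.helper97.KR2.Main

/-!
# Kreisel's conjecture when the instantiated terms nest boundedly many `+` and `·` (MP_3270f3)

`LK Ax l Γ Δ`: the sequent `Γ ⟹ Δ` has a sequent calculus derivation consisting of `l` sequents, with
initial sequents `A ⟹ A`, `⊥ ⟹` and `⟹ A` for `A` in `Ax`.
`PAx`: the axioms of Peano arithmetic. `AxF`: the equality axioms, the axioms for `S, +, ·`, and
induction, the Leibniz law and the least number principle for ALL formulas.
`LKI K AxF l Γ Δ`: as `LK AxF l Γ Δ`, but in each inference `∀`-left and `∃`-right the substituted term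
has at most `K` nested symbols `+`, `·` (and any number of `S`), or the quantified variable does not
occur under `+` or `·` in the principal formula.

If every instance `φ(n)` is provable, and every infinite arithmetic progression contains an `n` for
which `φ(n)` has a derivation `LKI K AxF` of length at most `k`, then PA proves `∀ x φ(x)`.
In particular, if all instances `φ(n)` have such derivations of length at most `k`.
-/

namespace Pool.Agent.Results.MP_3270f3_lc.BoundedInstantiation

open Pool.Agent.KR

theorem result (K k : ℕ) (φ : Fm) (hφ : φ.bd 1)
    (hall : ∀ n : ℕ, ∃ l : ℕ, LK AxF l [] [φ.inst (num n)])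
    (hk : ∀ r j : ℕ, 0 < j → ∃ t l : ℕ, l ≤ k ∧ LKI K AxF l [] [φ.inst (num (r + j * t))]) :
    ∃ l : ℕ, LK PAx l [] [.all φ] :=
  BI_main K k φ hφ hall hk

end Pool.Agent.Results.MP_3270f3_lc.BoundedInstantiation
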