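import Pool.Agent.helper6.KR.Main

/-!
# Kreisel's conjecture when the induction variable is nested under boundedly many `+` and `·` (MP_3270f3)

`LK Ax l Γ Δ`: the sequent `Γ ⟹ Δ` has a sequent calculus derivation consisting of `l` sequents, with
initial sequents `A ⟹ A`, `⊥ ⟹` and `⟹ A` for `A` in `Ax`.
`PAx`: the axioms of Peano arithmetic. `AxK K`: the equality axioms, the axioms for `S, +, ·`,
the least number principle for all formulas, and successor induction (and the Leibniz axiom) for the
formulas in which every occurrence of the induction variable lies under at most `K` symbols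
`+` and `·` (and any number of `S`).

If every instance `φ(n)` is derivable, and every infinite arithmetic progression contains an `n` for
which `φ(n)` has a derivation of length at most `k` from `AxK K`, then PA proves `∀ x φ(x)`.
In particular, if all instances `φ(n)` have derivations of length at most `k`.
-/

namespace Pool.Agent.Results.MP_3270f3_lc.BoundedNesting

open Pool.Agent.KR

theorem result (K k : ℕ) (φ : Fm) (hφ : φ.bd 1)
    (hall : ∀ n : ℕ, ∃ l : ℕ, LK (AxK K) l [] [φ.inst (num n)])
    (hk : ∀ r j : ℕ, 0 < j → ∃ t l : ℕ, l ≤ k ∧ LK (AxK K) l [] [φ.inst (num (r + j * t))]) :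
    ∃ l : ℕ, LK PAx l [] [.all φ] :=
  Main_final K k φ hφ hall hk

end Pool.Agent.Results.MP_3270f3_lc.BoundedNesting
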